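import Pool.Agent.H48.RN.Stmts2

/-!
# Project RN: module DLO (lower bound for the dimension)
-/

set_option autoImplicit false
set_option linter.unusedVariables false

namespace Pool.RN

open Polynomial

/-- powers of `x` have weight `(q - 1) j` -/
lemma DLO_pow {F k : Type} [Field F] [Fintype F] [Field k] [Algebra F k] (m j : ℕ) :
    (MvPolynomial.X none ^ j : PP k m) ∈ WW F k m ((Fintype.card F - 1) * j) := by
  classical
  intro s hs
  rw [MvPolynomial.X_pow_eq_monomial] at hs
  have h1 := MvPolynomial.support_monomial_subset hs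
  rw [Finset.mem_singleton] at h1
  subst h1
  simp [wt]

lemma DLO_mono {F k : Type} [Field F] [Fintype F] [Field k] [Algebra F k] {m a b : ℕ}
    (hab : a ≤ b) {P : PP k m} (hP : P ∈ WW F k m a) : P ∈ WW F k m b :=
  fun s hs => (hP s hs).trans hab

theorem s_DLO {F k : Type} [Field F] [Fintype F] [Field k] [Algebra F k] [IsAlgClosed k]
    [Algebra.IsAlgebraic F k] (M : F[X]) (Y : (EE k)[X]) (hM : M.Monic) (hm : 1 ≤ M.natDegree) (hY : Good M Y)
    (hBAS : S_BAS M Y) (hTRX : S_TRX F k) (hMLT : S_MLT F k) (hDUP : S_DUP M Y) : S_DLO M Y := by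
  classical
  obtain ⟨D₀, e, he, hind⟩ := hBAS
  refine ⟨D₀, ?_⟩
  intro d
  rcases lt_or_ge d D₀ with hd | hd
  · exact (Nat.mul_le_mul_left _ hd.le).trans (Nat.le_add_left _ _)
  set Q := Fintype.card F - 1 with hQ
  have hQ1 : 1 ≤ Q := by
    have := Fintype.one_lt_card (α := F)
    omega
  set N := (d - D₀) / Q with hN
  have hQN : Q * N ≤ d - D₀ := Nat.mul_div_le _ _
  have hmem : ∀ p : Fin (HH M Y).card × Fin (N + 1),
      ev (k := k) M.natDegree (xx F k) Y (MvPolynomial.X none ^ (p.2 : ℕ) * e p.1) ∈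
        RR F M.natDegree Y d := by
    intro p
    refine ⟨_, ?_, rfl⟩
    have h1 := hMLT M.natDegree _ _ _ _ (DLO_pow (F := F) (k := k) M.natDegree (p.2 : ℕ)) (he p.1)
    refine DLO_mono ?_ h1
    have h2 : (p.2 : ℕ) ≤ N := Nat.lt_succ_iff.1 p.2.2
    have h3 : (Fintype.card F - 1) * (p.2 : ℕ) ≤ Q * N := Nat.mul_le_mul_left Q h2
    omega
  obtain ⟨hfin, -⟩ := hDUP d
  have hli : LinearIndependent k (fun p : Fin (HH M Y).card × Fin (N + 1) =>
      (⟨ev (k := k) M.natDegree (xx F k) Y (MvPolynomial.X none ^ (p.2 : ℕ) * e p.1), hmem p⟩ :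
        RR F M.natDegree Y d)) := by
    rw [Fintype.linearIndependent_iff]
    intro c hc
    have h1 : ∑ p : Fin (HH M Y).card × Fin (N + 1), c p •
        ev (k := k) M.natDegree (xx F k) Y (MvPolynomial.X none ^ (p.2 : ℕ) * e p.1) = 0 := by
      have h2 := congrArg (fun z : RR F M.natDegree Y d => (z : EE k)) hc
      simpa using h2
    set P : Fin (HH M Y).card → k[X] := fun i => ∑ j : Fin (N + 1), C (c (i, j)) * X ^ (j : ℕ) with hP
    have h2 : ∑ i, aeval (xx F k) (P i) * ev (k := k) M.natDegree (xx F k) Y (e i) = 0 := by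
      rw [← h1, Fintype.sum_prod_type]
      refine Finset.sum_congr rfl fun i _ => ?_
      rw [hP]
      simp only [map_sum, map_mul, map_pow, aeval_C, aeval_X]
      rw [Finset.sum_mul]
      refine Finset.sum_congr rfl fun j _ => ?_
      have h3 : ev (k := k) M.natDegree (xx F k) Y (MvPolynomial.X none) = xx F k := by
        simp [ev]
      rw [h3, Algebra.smul_def, mul_assoc]
    have h3 := hind P h2
    rintro ⟨i, j⟩
    have h4 := congrArg (fun p : k[X] => p.coeff j) (h3 i)
    rw [hP] at h4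
    simp only [finsetSum_coeff, coeff_C_mul, coeff_X_pow, coeff_zero] at h4
    rw [Finset.sum_eq_single j] at h4
    · simpa using h4
    · intro b _ hb
      have : ¬ ((j : ℕ) = b) := fun h => hb (Fin.ext h.symm)
      simp [this]
    · simp
  have hcard := hli.fintype_card_le_finrank
  rw [Fintype.card_prod, Fintype.card_fin, Fintype.card_fin] at hcard
  have h5 : d - D₀ ≤ Q * (N + 1) := by
    have h6 : Q * N + (d - D₀) % Q = d - D₀ := Nat.div_add_mod (d - D₀) Q
    have h7 := Nat.mod_lt (d - D₀) (show 0 < Q by omega)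
    rw [mul_add, mul_one]
    omega
  calc (HH M Y).card * d = (HH M Y).card * (d - D₀) + (HH M Y).card * D₀ := by
        rw [← mul_add, Nat.sub_add_cancel hd]
    _ ≤ (HH M Y).card * (Q * (N + 1)) + (HH M Y).card * D₀ := Nat.add_le_add_right (Nat.mul_le_mul_left _ h5) _
    _ = Q * ((HH M Y).card * (N + 1)) + (HH M Y).card * D₀ := by ring
    _ ≤ Q * Module.finrank k (RR F M.natDegree Y d) + (HH M Y).card * D₀ :=
        Nat.add_le_add_right (Nat.mul_le_mul_left Q hcard) _

end Pool.RN
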