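import Pool.Agent.H48.RN.Stmts2

/-!
# Project RN: module FOD (the relations are defined over a finite field)
-/

set_option autoImplicit false
set_option linter.unusedVariables false

namespace Pool.RN

open Polynomial

/-- every element of `k` is fixed by a power of the Frobenius map -/
lemma FOD_one {F k : Type} [Field F] [Fintype F] [Field k] [Algebra F k]
    [Algebra.IsAlgebraic F k] (x : k) : ∃ r : ℕ, 1 ≤ r ∧ x ^ (Fintype.card F ^ r) = x := by
  have hx : IsIntegral F x := Algebra.IsIntegral.isIntegral x
  have : FiniteDimensional F (IntermediateField.adjoin F {x}) :=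
    IntermediateField.adjoin.finiteDimensional hx
  have : Finite (IntermediateField.adjoin F {x}) := Module.finite_of_finite F
  let : Fintype (IntermediateField.adjoin F {x}) := Fintype.ofFinite _
  refine ⟨Module.finrank F (IntermediateField.adjoin F {x}), Module.finrank_pos, ?_⟩
  have h1 := FiniteField.pow_card
    (⟨x, IntermediateField.mem_adjoin_simple_self F x⟩ : IntermediateField.adjoin F {x})
  have h2 : Fintype.card (IntermediateField.adjoin F {x}) =
      Fintype.card F ^ Module.finrank F (IntermediateField.adjoin F {x}) :=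
    Module.card_eq_pow_finrank
  rw [h2] at h1
  exact congrArg Subtype.val h1

lemma FOD_iter {q : ℕ} {k : Type} [Field k] {x : k} {r : ℕ} (h : x ^ (q ^ r) = x) (j : ℕ) :
    x ^ (q ^ (r * j)) = x := by
  induction j with
  | zero => simp
  | succ j ih =>
    rw [Nat.mul_succ, pow_add, pow_mul, ih, h]

/-- a finite set of elements of `k` is fixed by a power of the Frobenius map -/
lemma FOD_set {F k : Type} [Field F] [Fintype F] [Field k] [Algebra F k]
    [Algebra.IsAlgebraic F k] (S : Finset k) :
    ∃ r : ℕ, 1 ≤ r ∧ ∀ x ∈ S, ∀ j, x ^ (Fintype.card F ^ (r * j)) = x := by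
  classical
  induction S using Finset.induction_on with
  | empty => exact ⟨1, le_rfl, by simp⟩
  | insert a S _ ih =>
    obtain ⟨r, hr, h1⟩ := ih
    obtain ⟨t, ht, h2⟩ := FOD_one (F := F) a
    refine ⟨r * t, Nat.mul_pos hr ht, ?_⟩
    intro x hx j
    rcases Finset.mem_insert.1 hx with rfl | hx
    · rw [show r * t * j = t * (r * j) by ring]
      exact FOD_iter h2 _
    · rw [mul_assoc]
      exact h1 x hx _

theorem s_FOD {F k : Type} [Field F] [Fintype F] [Field k] [Algebra F k] [IsAlgClosed k]
    [Algebra.IsAlgebraic F k] (M : F[X]) (Y : (EE k)[X]) (hM : M.Monic) (hm : 1 ≤ M.natDegree) (hY : Good M Y)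
     : S_FOD M Y := by
  classical
  set I : Ideal (PP k M.natDegree) := RingHom.ker (ev (k := k) M.natDegree (xx F k) Y) with hI
  obtain ⟨G, hG⟩ : I.FG := IsNoetherian.noetherian I
  obtain ⟨r, hr, hfix⟩ := FOD_set (F := F)
    (G.biUnion fun g => g.support.image fun s => g.coeff s)
  refine ⟨r, hr, ?_⟩
  intro j P hP
  have hmem : P ∈ I := hP
  rw [← hG] at hmem
  -- the generators are fixed
  have hgen : ∀ g ∈ G, MvPolynomial.map (frr F k (r * j)) g = g := by
    intro g hg
    ext s
    rw [MvPolynomial.coeff_map]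
    by_cases h0 : g.coeff s = 0
    · rw [h0, map_zero]
    · rw [frr_apply]
      refine hfix _ ?_ j
      rw [Finset.mem_biUnion]
      exact ⟨g, hg, Finset.mem_image.2 ⟨s, MvPolynomial.mem_support_iff.2 h0, rfl⟩⟩
  have hq : 0 < Fintype.card F ^ (r * j) := pow_pos Fintype.card_pos _
  have hsurj : Function.Surjective (frr F k (r * j)) := by
    intro c
    obtain ⟨d, hd⟩ := IsAlgClosed.exists_pow_nat_eq c hq
    exact ⟨d, by rw [frr_apply, hd]⟩
  have hsurj2 := MvPolynomial.map_surjective (σ := Option (Fin M.natDegree)) _ hsurj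
  have hev : ∀ g ∈ G, ev M.natDegree (xx F k) Y g = 0 := by
    intro g hg
    have : g ∈ I := by rw [← hG]; exact Ideal.subset_span hg
    exact this
  induction hmem using Submodule.span_induction with
  | mem g hg => exact ⟨g, hev g hg, hgen g hg⟩
  | zero => exact ⟨0, by simp, by simp⟩
  | add a b ha hb iha ihb =>
    have ha' : ev M.natDegree (xx F k) Y a = 0 := by
      have h1 : a ∈ I := by rw [← hG]; exact ha
      exact h1
    have hb' : ev M.natDegree (xx F k) Y b = 0 := by
      have h1 : b ∈ I := by rw [← hG]; exact hb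
      exact h1
    obtain ⟨a', h1, h2⟩ := iha ha'
    obtain ⟨b', h3, h4⟩ := ihb hb'
    exact ⟨a' + b', by rw [map_add, h1, h3, add_zero], by rw [map_add, h2, h4]⟩
  | smul c a ha iha =>
    have ha' : ev M.natDegree (xx F k) Y a = 0 := by
      have h1 : a ∈ I := by rw [← hG]; exact ha
      exact h1
    obtain ⟨a', h1, h2⟩ := iha ha'
    obtain ⟨c', hc'⟩ := hsurj2 c
    exact ⟨c' * a', by rw [map_mul, h1, mul_zero], by rw [map_mul, h2, hc', smul_eq_mul]⟩

end Pool.RN
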