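import Pool.Agent.H48.RN.Stmts2

/-!
# Project RN: module NRH (norms are in `H`)
-/

set_option autoImplicit false
set_option linter.unusedVariables false

namespace Pool.RN

open Polynomial

theorem s_NRH {F k : Type} [Field F] [Fintype F] [Field k] [Algebra F k] [IsAlgClosed k]
    [Algebra.IsAlgebraic F k] (M : F[X]) (Y : (EE k)[X]) (hM : M.Monic) (hm : 1 ≤ M.natDegree) (hY : Good M Y)
    (hFOD : S_FOD M Y) (hSTV : S_STV M Y) (hPTE : S_PTE M Y) (hPTU : S_PTU M Y) (hPTH : S_PTH M Y) (hEVA : S_EVA F k) (hACT : S_ACT F) (hNMI : S_NMI F k) : S_NRH M Y := by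
  obtain ⟨r, hr, hrel⟩ := hFOD
  refine ⟨r, hr, ?_⟩
  intro j hj x1 hx1 hMx
  obtain ⟨Y1, hY1⟩ := hPTE x1
  set c : F[X] := nm F x1 (r * j) with hc
  have hrj : 1 ≤ r * j := Nat.mul_pos hr hj
  obtain ⟨h1, -, h2⟩ := hEVA M hM hm k x1 Y1 c hY1.1
  have h3 : IsPt M Y x1 (act M c Y1) := by
    refine ⟨h1, ?_⟩
    intro P hP
    obtain ⟨P', hP', hPP⟩ := hrel j P hP
    have h4 := hSTV (r * j) hrj c x1 Y1 hx1 hMx hY1 (by rw [hc, sub_self]; exact dvd_zero _) P'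
    rw [hY1.2 P' hP', hPP, ← h2 P] at h4
    rw [← h4]
    exact zero_pow (pow_pos Fintype.card_pos _).ne'
  obtain ⟨g, hg, hgY⟩ := hPTH x1 Y1 _ hMx hY1 h3
  refine ⟨g, hg, ?_⟩
  exact ((hACT M hM hm k x1 Y1 (hPTU x1 Y1 hY1 hMx)).2.2.1 c g).1 hgY

end Pool.RN
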