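import Pool.Agent.H48.RN.Stmts2

/-!
# Project RN: module PTE (there are points over every `x1`)
-/

set_option autoImplicit false
set_option linter.unusedVariables false

namespace Pool.RN

open Polynomial

/-- the values of polynomials are integral over `k[x]` -/
lemma PTE_int {F k : Type} [Field F] [Fintype F] [Field k] [Algebra F k]
    (m : ℕ) (Y : (EE k)[X]) (hINT : S_INT F Y) (P : PP k m) :
    ev m (xx F k) Y P ∈ integralClosure (Algebra.adjoin k {xx F k}) (EE k) := by
  induction P using MvPolynomial.induction_on with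
  | C a =>
    have h1 : ev m (xx F k) Y (MvPolynomial.C a) = algebraMap k (EE k) a := by
      simp [ev]
    rw [h1]
    have h2 : algebraMap k (EE k) a =
        algebraMap (Algebra.adjoin k {xx F k}) (EE k)
          (algebraMap k (Algebra.adjoin k {xx F k}) a) := rfl
    rw [h2]
    exact isIntegral_algebraMap
  | add p q hp hq =>
    rw [map_add]
    exact add_mem hp hq
  | mul_X p n hp =>
    rw [map_mul]
    refine mul_mem hp ?_
    cases n with
    | none =>
      have h1 : ev (k := k) m (xx F k) Y (MvPolynomial.X none) = xx F k := by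
        simp [ev]
      rw [h1]
      exact isIntegral_algebraMap (R := Algebra.adjoin k {xx F k}) (A := EE k)
        (x := ⟨xx F k, Algebra.self_mem_adjoin_singleton k _⟩)
    | some i =>
      have h1 : ev (k := k) m (xx F k) Y (MvPolynomial.X (some i)) = Y.coeff i := by
        simp [ev]
      rw [h1]
      exact hINT i

theorem s_PTE {F k : Type} [Field F] [Fintype F] [Field k] [Algebra F k] [IsAlgClosed k]
    [Algebra.IsAlgebraic F k] (M : F[X]) (Y : (EE k)[X]) (hM : M.Monic) (hm : 1 ≤ M.natDegree) (hY : Good M Y)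
    (hINT : S_INT F Y) (hTRX : S_TRX F k) : S_PTE M Y := by
  classical
  intro x1
  set m := M.natDegree with hmdef
  set I : Ideal (PP k m) := RingHom.ker (ev (k := k) m (xx F k) Y) with hI
  set J : Ideal (PP k m) := I ⊔ Ideal.span {MvPolynomial.X none - MvPolynomial.C x1} with hJ
  have hJtop : J ≠ ⊤ := by
    intro htop
    have h1 : (1 : PP k m) ∈ J := by rw [htop]; trivial
    rw [hJ, Submodule.mem_sup] at h1
    obtain ⟨a, ha, b, hb, hab⟩ := h1
    obtain ⟨Q, hQ⟩ := Ideal.mem_span_singleton'.1 hb
    have ha' : ev m (xx F k) Y a = 0 := ha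
    have h2 : (xx F k - algebraMap k (EE k) x1) * ev m (xx F k) Y Q = 1 := by
      have h3 := congrArg (ev m (xx F k) Y) hab
      rw [map_add, ha', zero_add, ← hQ, map_mul, map_one] at h3
      rw [mul_comm]
      have h4 : ev m (xx F k) Y (MvPolynomial.X none - MvPolynomial.C x1) =
          xx F k - algebraMap k (EE k) x1 := by
        simp [ev]
      rwa [h4] at h3
    -- `x - x1` is a unit of `k[x]`
    let A0 := Algebra.adjoin k {xx F k}
    let u : A0 := ⟨xx F k, Algebra.self_mem_adjoin_singleton k _⟩ - algebraMap k A0 x1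
    let S := integralClosure A0 (EE k)
    let f : S := ⟨ev m (xx F k) Y Q, PTE_int m Y hINT Q⟩
    have h3 : algebraMap A0 S u * f = 1 := Subtype.ext h2
    have h4 : IsUnit (algebraMap A0 S u) := IsUnit.of_mul_eq_one _ h3
    have : FaithfulSMul A0 S := by
      rw [faithfulSMul_iff_algebraMap_injective]
      intro a b hab
      have h5 := congrArg (fun z : S => (z : EE k)) hab
      exact Subtype.ext h5
    have h5 : IsUnit u := isUnit_of_map_unit (algebraMap A0 S) u h4
    obtain ⟨w, hw⟩ := h5.exists_right_inv
    have hw2 : (w : EE k) ∈ Algebra.adjoin k {xx F k} := w.2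
    rw [Algebra.adjoin_singleton_eq_range_aeval] at hw2
    obtain ⟨W, hW⟩ := hw2
    have h6 : aeval (xx F k) ((X - C x1) * W - 1) = 0 := by
      have h7 := congrArg (fun z : A0 => (z : EE k)) hw
      have h8 : (xx F k - algebraMap k (EE k) x1) * (w : EE k) = 1 := h7
      rw [map_sub, map_mul, map_sub, aeval_X, aeval_C, map_one, sub_eq_zero]
      have hW' : aeval (xx F k) W = (w : EE k) := hW
      rw [hW']
      exact h8
    have h7 : (X - C x1) * W - 1 = 0 := by
      by_contra hne
      exact (hTRX _ hne).1 h6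
    have h8 := congrArg (Polynomial.eval x1) h7
    simp at h8
  obtain ⟨𝔪, h𝔪, hle⟩ := Ideal.exists_le_maximal J hJtop
  obtain ⟨pt, hpt⟩ := (MvPolynomial.isMaximal_iff_eq_vanishingIdeal_singleton (K := k)).1 h𝔪
  have hvan : ∀ P ∈ J, MvPolynomial.aeval pt P = 0 := by
    intro P hP
    have h1 := hle hP
    rw [hpt, MvPolynomial.mem_vanishingIdeal_iff] at h1
    exact h1 pt rfl
  have hpt0 : pt none = x1 := by
    have h1 := hvan _ (Ideal.mem_sup_right (Ideal.mem_span_singleton_self _))
    simpa [sub_eq_zero] using h1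
  set Y1 : k[X] := ∑ i : Fin m, C (pt (some i)) * X ^ (i : ℕ) with hY1
  have hcoeff : ∀ i : Fin m, Y1.coeff i = pt (some i) := by
    intro i
    rw [hY1, finsetSum_coeff]
    simp only [coeff_C_mul, coeff_X_pow]
    rw [Finset.sum_eq_single i]
    · simp
    · intro j _ hj
      have : ¬ ((i : ℕ) = j) := fun h => hj (Fin.ext h.symm)
      simp [this]
    · simp
  refine ⟨Y1, ?_, ?_⟩
  · rw [hY1]
    refine (degree_sum_le _ _).trans_lt ?_
    rw [Finset.sup_lt_iff]
    · intro i _
      refine (degree_C_mul_X_pow_le _ _).trans_lt ?_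
      rw [degree_eq_natDegree hM.ne_zero]
      exact_mod_cast i.2
    · rw [bot_lt_iff_ne_bot]
      exact fun h => hM.ne_zero (degree_eq_bot.1 h)
  · intro P hP
    have h1 := hvan P (Ideal.mem_sup_left hP)
    have h2 : ev m x1 Y1 P = MvPolynomial.aeval pt P := by
      unfold ev
      congr 2
      funext o
      cases o with
      | none => simp [hpt0]
      | some i => simp [hcoeff]
    rw [h2]
    exact h1

end Pool.RN
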