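import Pool.Agent.H48.RN.Stmts2

/-!
# Project RN: module PTQ (the equation of the points)
-/

set_option autoImplicit false
set_option linter.unusedVariables false

namespace Pool.RN

open Polynomial

/-- the relation number `i` -/
noncomputable def PTQ_rel {F : Type} (k : Type) [Field F] [Fintype F] [Field k] [Algebra F k]
    (M : F[X]) (i : Fin M.natDegree) : PP k M.natDegree :=
  MvPolynomial.X (some i) ^ (Fintype.card F) -
    ∑ j : Fin M.natDegree, MvPolynomial.C (algebraMap F k (ag M X i j)) * MvPolynomial.X (some j) +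
    MvPolynomial.X none * MvPolynomial.X (some i)

lemma PTQ_iff {F k : Type} [Field F] [Fintype F] [Field k] [Algebra F k]
    (M : F[X]) (hM : M.Monic) (hm : 1 ≤ M.natDegree) (hEVA : S_EVA F k)
    (L : Type) [Field L] [Algebra F L] [Algebra k L] [IsScalarTower F k L] (x : L) (Y : L[X])
    (hY : Y.degree < M.degree) :
    M.map (algebraMap F L) ∣ tw F Y - (X - C x) * Y ↔
      ∀ i : Fin M.natDegree, ev M.natDegree x Y (PTQ_rel k M i) = 0 := by
  have hML : (M.map (algebraMap F L)).Monic := hM.map _
  have hdeg : (M.map (algebraMap F L)).degree = M.degree := degree_map M _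
  obtain ⟨hact, hcoef, -⟩ := hEVA M hM hm L x Y X hY
  have htw : (tw F Y).degree < (M.map (algebraMap F L)).degree := by
    rw [hdeg]
    exact (degree_map_le).trans_lt hY
  have hCx : (C x * Y).degree < (M.map (algebraMap F L)).degree := by
    rw [hdeg]
    by_cases hx : x = 0
    · rw [hx, C_0, zero_mul, degree_zero, bot_lt_iff_ne_bot]
      exact fun h => hM.ne_zero (degree_eq_bot.1 h)
    · rwa [degree_C_mul hx]
  have hmod : (tw F Y - (X - C x) * Y) %ₘ (M.map (algebraMap F L)) =
      tw F Y - act M X Y + C x * Y := by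
    have h1 : tw F Y - (X - C x) * Y = tw F Y - X * Y + C x * Y := by ring
    rw [h1, add_modByMonic, sub_modByMonic, (modByMonic_eq_self_iff hML).2 htw,
      (modByMonic_eq_self_iff hML).2 hCx]
    simp [act]
  rw [← modByMonic_eq_zero_iff_dvd hML, hmod]
  have hcf : ∀ i : Fin M.natDegree, (tw F Y - act M X Y + C x * Y).coeff i =
      ev M.natDegree x Y (PTQ_rel k M i) := by
    intro i
    have h1 : (tw F Y).coeff i = Y.coeff i ^ Fintype.card F := by
      simp [tw, coeff_map]
    have h2 : ∀ j : Fin M.natDegree, ev (k := k) M.natDegree x Y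
        (MvPolynomial.C (algebraMap F k (ag M X i j)) * MvPolynomial.X (some j)) =
        algebraMap F L (ag M X i j) * Y.coeff j := by
      intro j
      simp [ev, ← IsScalarTower.algebraMap_apply]
    rw [coeff_add, coeff_sub, h1, hcoef i i.2, coeff_C_mul, PTQ_rel, map_add, map_sub, map_sum]
    simp only [h2]
    simp [ev]
  constructor
  · intro h i
    rw [← hcf i, h, coeff_zero]
  · intro h
    ext n
    rw [coeff_zero]
    by_cases hn : n < M.natDegree
    · rw [hcf ⟨n, hn⟩]
      exact h ⟨n, hn⟩
    · apply coeff_eq_zero_of_degree_lt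
      have h1 : (tw F Y - act M X Y + C x * Y).degree < M.degree := by
        rw [hdeg] at htw hCx
        refine (degree_add_le _ _).trans_lt (max_lt ((degree_sub_le _ _).trans_lt
          (max_lt htw hact)) hCx)
      refine h1.trans_le ?_
      rw [degree_eq_natDegree hM.ne_zero]
      exact_mod_cast not_lt.1 hn

theorem s_PTQ {F k : Type} [Field F] [Fintype F] [Field k] [Algebra F k] [IsAlgClosed k]
    [Algebra.IsAlgebraic F k] (M : F[X]) (Y : (EE k)[X]) (hM : M.Monic) (hm : 1 ≤ M.natDegree) (hY : Good M Y)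
    (hEVA : S_EVA F k) : S_PTQ M Y := by
  intro x1 Y1 hpt
  rw [PTQ_iff (k := k) M hM hm hEVA k x1 Y1 hpt.1]
  intro i
  apply hpt.2
  exact (PTQ_iff (k := k) M hM hm hEVA (EE k) (xx F k) Y hY.sol.deg).1 hY.sol.eq i

end Pool.RN
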