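import Pool.Agent.H48.RN.Stmts2

/-!
# Project RN: module SEM (semilinear maps have a kernel)
-/

set_option autoImplicit false

namespace Pool.RN

theorem s_SEM (k : Type) [Field k] [IsAlgClosed k] : S_SEM (k := k) := by
  intro p s _ _ V W _ _ _ _ _ _ Φ hΦ hlt
  classical
  have hp : 0 < p ^ s := pow_pos (Fact.out : p.Prime).pos s
  let b := Module.finBasis k V
  have h1 : ¬ LinearIndependent k (fun i => Φ (b i)) := by
    intro h
    have h2 := h.fintype_card_le_finrank
    rw [Fintype.card_fin] at h2
    omega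
  rw [Fintype.not_linearIndependent_iff] at h1
  obtain ⟨c, hc, i, hi⟩ := h1
  have h2 : ∀ i, ∃ d : k, d ^ (p ^ s) = c i := fun i => IsAlgClosed.exists_pow_nat_eq (c i) hp
  choose d hd using h2
  refine ⟨∑ i, d i • b i, ?_, ?_⟩
  · intro h3
    have h4 := (Fintype.linearIndependent_iff.1 b.linearIndependent) d h3 i
    apply hi
    rw [← hd i, h4, zero_pow hp.ne']
  · rw [map_sum, ← hc]
    exact Finset.sum_congr rfl fun i _ => by rw [hΦ, hd]

end Pool.RN
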